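import Mathlib

/-! Selection of vectors whose integral combinations avoid a symmetric convex set. -/

set_option autoImplicit false

open Module
open scoped InnerProductSpace

namespace Pool.Agent.Zk75.Sel

theorem common_kernel {F : Type} [NormedAddCommGroup F] [NormedSpace ℝ F] [FiniteDimensional ℝ F]
    (i : ℕ) (f : ℕ → (F →L[ℝ] ℝ)) :
    ∃ 𝔥 : Submodule ℝ F, finrank ℝ F ≤ finrank ℝ 𝔥 + i ∧ ∀ x ∈ 𝔥, ∀ j < i, f j x = 0 := by
  set g : F →ₗ[ℝ] (Fin i → ℝ) := LinearMap.pi fun j => ((f j : F →L[ℝ] ℝ) : F →ₗ[ℝ] ℝ) with hg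
  refine ⟨LinearMap.ker g, ?_, ?_⟩
  · have h1 := LinearMap.finrank_range_add_finrank_ker g
    have h2 : finrank ℝ (LinearMap.range g) ≤ i := by
      have := Submodule.finrank_le (LinearMap.range g)
      rwa [Module.finrank_fin_fun] at this
    omega
  · intro x hx j hj
    have h1 := congrFun (LinearMap.mem_ker.1 hx) ⟨j, hj⟩
    simpa [hg] using h1

theorem sep {F : Type} [NormedAddCommGroup F] [NormedSpace ℝ F]
    (B : Set F) (hB : Convex ℝ B) (hBc : IsClosed B) (h0 : (0 : F) ∈ B) (x : F) (hx : x ∉ B) :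
    ∃ f : F →L[ℝ] ℝ, (∀ b ∈ B, f b < 1) ∧ 1 < f x := by
  obtain ⟨f, u, h1, h2⟩ := geometric_hahn_banach_closed_point hB hBc hx
  have hu : 0 < u := by
    have := h1 0 h0
    rwa [map_zero] at this
  refine ⟨u⁻¹ • f, fun b hb => ?_, ?_⟩
  · have := h1 b hb
    rw [ContinuousLinearMap.smul_apply, smul_eq_mul, inv_mul_lt_iff₀ hu, mul_one]
    exact this
  · rw [ContinuousLinearMap.smul_apply, smul_eq_mul, lt_inv_mul_iff₀ hu, mul_one]
    exact h2

theorem seq {F : Type} [NormedAddCommGroup F] [NormedSpace ℝ F] [FiniteDimensional ℝ F]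
    (B : Set F) (hB : Convex ℝ B) (hBc : IsClosed B) (h0 : (0 : F) ∈ B)
    (r : ℕ)
    (h : ∀ 𝔥 : Submodule ℝ F, finrank ℝ F < finrank ℝ 𝔥 + r → ∃ X ∈ 𝔥, ‖X‖ ≤ 1 ∧ X ∉ B)
    (i : ℕ) (hi : i ≤ r) :
    ∃ (X : ℕ → F) (f : ℕ → (F →L[ℝ] ℝ)), ∀ j < i, ‖X j‖ ≤ 1 ∧ (∀ b ∈ B, f j b < 1) ∧
      1 < f j (X j) ∧ ∀ l, j < l → l < i → f j (X l) = 0 := by
  induction i with
  | zero => exact ⟨fun _ => 0, fun _ => 0, fun j hj => absurd hj (Nat.not_lt_zero j)⟩
  | succ i ih =>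
    obtain ⟨X, f, hXf⟩ := ih (by omega)
    obtain ⟨𝔥, h1, h2⟩ := common_kernel i f
    obtain ⟨x, hx1, hx2, hx3⟩ := h 𝔥 (by omega)
    obtain ⟨φ, hφ1, hφ2⟩ := sep B hB hBc h0 x hx3
    refine ⟨Function.update X i x, Function.update f i φ, fun j hj => ?_⟩
    rcases Nat.lt_succ_iff_lt_or_eq.1 hj with hj' | hj'
    · obtain ⟨a1, a2, a3, a4⟩ := hXf j hj'
      have hne : j ≠ i := hj'.ne
      rw [Function.update_of_ne hne, Function.update_of_ne hne]
      refine ⟨a1, a2, a3, fun l hl1 hl2 => ?_⟩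
      rcases Nat.lt_succ_iff_lt_or_eq.1 hl2 with hl | hl
      · rw [Function.update_of_ne hl.ne]
        exact a4 l hl1 hl
      · rw [hl, Function.update_self]
        exact h2 x hx1 j hj'
    · subst hj'
      rw [Function.update_self, Function.update_self]
      refine ⟨hx2, hφ1, hφ2, fun l hl1 hl2 => ?_⟩
      omega

theorem select {F : Type} [NormedAddCommGroup F] [NormedSpace ℝ F] [FiniteDimensional ℝ F]
    (B : Set F) (hB : Convex ℝ B) (hBc : IsClosed B) (h0 : (0 : F) ∈ B) (hBs : ∀ x ∈ B, -x ∈ B)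
    (r : ℕ)
    (h : ∀ 𝔥 : Submodule ℝ F, finrank ℝ F < finrank ℝ 𝔥 + r → ∃ X ∈ 𝔥, ‖X‖ ≤ 1 ∧ X ∉ B) :
    ∃ X : Fin r → F, (∀ i, ‖X i‖ ≤ 1) ∧
      ∀ a : Fin r → ℤ, a ≠ 0 → ∑ i, (a i : ℝ) • X i ∉ B := by
  obtain ⟨X, f, hXf⟩ := seq B hB hBc h0 r h r le_rfl
  refine ⟨fun i => X i, fun i => (hXf i i.2).1, fun a ha hmem => ?_⟩
  -- the first nonzero coefficient
  have hex : ∃ i : Fin r, a i ≠ 0 := by
    by_contra hc
    push Not at hc
    exact ha (funext hc)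
  obtain ⟨i, hi, hmin⟩ := Finset.exists_min_image (Finset.univ.filter fun i : Fin r => a i ≠ 0)
    (fun i => (i : ℕ)) (by
      obtain ⟨i, hi⟩ := hex
      exact ⟨i, by rw [Finset.mem_filter]; exact ⟨Finset.mem_univ i, hi⟩⟩)
  rw [Finset.mem_filter] at hi
  obtain ⟨a1, a2, a3, a4⟩ := hXf i i.2
  have key : f i (∑ l, (a l : ℝ) • X l) = (a i : ℝ) * f i (X i) := by
    rw [map_sum, Finset.sum_eq_single i]
    · rw [map_smul, smul_eq_mul]
    · intro l _ hl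
      rw [map_smul, smul_eq_mul]
      rcases lt_trichotomy (l : ℕ) (i : ℕ) with h1 | h1 | h1
      · have : a l = 0 := by
          by_contra hc
          have := hmin l (by rw [Finset.mem_filter]; exact ⟨Finset.mem_univ l, hc⟩)
          omega
        rw [this, Int.cast_zero, zero_mul]
      · exact absurd (Fin.ext h1) hl
      · rw [a4 l h1 l.2, mul_zero]
    · intro hn
      exact absurd (Finset.mem_univ i) hn
  have h1 := a2 _ hmem
  have h2 := a2 _ (hBs _ hmem)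
  rw [map_neg] at h2
  rw [key] at h1 h2
  have h3 : (1 : ℝ) ≤ |(a i : ℝ)| := by
    have : (1 : ℤ) ≤ |a i| := Int.one_le_abs hi.2
    exact_mod_cast this
  rcases abs_cases (a i : ℝ) with ⟨h4, h5⟩ | ⟨h4, h5⟩
  · rw [h4] at h3
    nlinarith
  · rw [h4] at h3
    nlinarith

end Pool.Agent.Zk75.Sel
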