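import Pool.Agent.Zk11.QD.Tor
import Pool.Agent.Zk11.QD.Exp

/-! The deterministic part of the spreading of eigenfunctions: the two-sided resolvent bound and
its local form. -/

set_option autoImplicit false
set_option linter.unusedSectionVars false

open scoped BigOperators

namespace Pool.Agent.Zk60.AE

open Pool.Agent.W788.MFP.Four (T e NN adj adj_neg e_comm e_add_left e_add e_zero e_neg e_neg_left
  e_normSq sum_e NN_pos card_T e_single)
open Pool.Agent.Zk11.QD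

variable {d L : ℕ} [NeZero L]

/-- the square root of the absolute value of the symbol of the resolvent -/
noncomputable def tw (E η : ℝ) (k : T d L) : ℝ := ((aa k - E) ^ 2 + η ^ 2) ^ (-(1 / 4) : ℝ)

/-- its kernel -/
noncomputable def Tk (E η : ℝ) (x : T d L) : ℂ := kc (fun k => (tw E η k : ℂ)) x

/-- the cube of half-width `r` around `y` -/
noncomputable def cub (y : T d L) (r : ℝ) : Finset (T d L) :=
  Finset.univ.filter fun x => ∀ i, ((|((x - y) i).valMinAbs| : ℤ) : ℝ) ≤ r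

/-- the Fourier transform -/
noncomputable def ft (f : T d L → ℂ) (k : T d L) : ℂ := ∑ x, f x * (starRingEnd ℂ) (e k x)

theorem kc_ft (f : T d L → ℂ) (x : T d L) : kc (ft f) x = f x := by
  unfold kc ft
  have h1 : ∀ k : T d L, (∑ y, f y * (starRingEnd ℂ) (e k y)) * e k x =
      ∑ y, f y * e k (x - y) := by
    intro k
    rw [Finset.sum_mul]
    refine Finset.sum_congr rfl fun y _ => ?_
    rw [sub_eq_add_neg, e_add, e_neg]
    ring
  rw [Finset.sum_congr rfl fun k _ => h1 k, Finset.sum_comm]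
  have h2 : ∀ y : T d L, ∑ k, f y * e k (x - y) =
      if x = y then f y * ((NN d L : ℝ) : ℂ) else 0 := by
    intro y
    rw [← Finset.mul_sum, sum_e]
    by_cases h : x = y
    · rw [if_pos h, if_pos (by rw [h, sub_self])]
    · rw [if_neg h, if_neg (sub_ne_zero.2 h), mul_zero]
  rw [Finset.sum_congr rfl fun y _ => h2 y, Finset.sum_ite_eq, if_pos (Finset.mem_univ x)]
  have := NNc_ne (d := d) (L := L)
  field_simp

theorem conv_kc (a b : T d L → ℂ) (x : T d L) :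
    ∑ w, kc a (x - w) * kc b w = kc (fun k => a k * b k) x := by
  have h := kc_conv a b x 0
  simpa only [sub_zero] using h

theorem base_pos (E : ℝ) {η : ℝ} (hη : 0 < η) (k : T d L) : 0 < (aa k - E) ^ 2 + η ^ 2 := by
  positivity

theorem tw_pos (E : ℝ) {η : ℝ} (hη : 0 < η) (k : T d L) : 0 < tw E η k :=
  Real.rpow_pos_of_pos (base_pos E hη k) _

theorem tw_sq (E : ℝ) {η : ℝ} (hη : 0 < η) (k : T d L) :
    tw E η k ^ 2 = (Real.sqrt ((aa k - E) ^ 2 + η ^ 2))⁻¹ := by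
  have h := base_pos E hη k
  unfold tw
  rw [← Real.rpow_natCast, ← Real.rpow_mul h.le, Real.sqrt_eq_rpow, ← Real.rpow_neg h.le]
  norm_num

theorem tw_sq_le (E : ℝ) {η : ℝ} (hη : 0 < η) (k : T d L) : tw E η k ^ 2 ≤ η⁻¹ := by
  rw [tw_sq E hη k]
  apply inv_anti₀ hη
  apply Real.le_sqrt_of_sq_le
  nlinarith [sq_nonneg (aa k - E)]

theorem tw_unit (E : ℝ) {η : ℝ} (hη : 0 < η) (k : T d L) :
    ‖((tw E η k : ℝ) : ℂ) ^ 2 * (((aa k - E : ℝ) : ℂ) + Complex.I * η)‖ = 1 := by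
  have h := base_pos E hη k
  have h1 : ‖((aa k - E : ℝ) : ℂ) + Complex.I * η‖ = Real.sqrt ((aa k - E) ^ 2 + η ^ 2) := by
    rw [mul_comm Complex.I]
    exact Complex.norm_add_mul_I _ _
  rw [norm_mul, norm_pow, Complex.norm_real, Real.norm_eq_abs, sq_abs, h1, tw_sq E hη k]
  exact inv_mul_cancel₀ (Real.sqrt_pos.2 h).ne'

/-- the operator in Fourier space -/
theorem Hz_kc (z : ℂ) (σ : ℝ) (V : T d L → ℝ) (f : T d L → ℂ) (x : T d L) :
    Hz z σ V (kc f) x = kc (fun k => ((aa k : ℂ) - z) * f k) x + (σ : ℂ) * V x * kc f x := by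
  unfold Hz
  rw [← adj_apply, conv_kc (fun k => ((adj k : ℝ) : ℂ)) f x]
  have h1 : (fun k : T d L => ((aa k : ℂ) - z) * f k) =
      fun k => (2 * (d : ℂ) - z) * f k + (-1) * (((adj k : ℝ) : ℂ) * f k) := by
    funext k
    unfold aa
    push_cast
    ring
  rw [h1, kc_add (fun k => (2 * (d : ℂ) - z) * f k) (fun k => (-1) * (((adj k : ℝ) : ℂ) * f k)),
    kc_const_mul, kc_const_mul]
  ring

theorem det {E η lam m : ℝ} (hη : 0 < η) (V : T d L → ℝ)
    (hX : ∀ z : T d L → ℂ, ∑ y, ‖(lam : ℂ) * ∑ x, Tk E η (y - x) *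
      (((V x - m : ℝ) : ℂ) * ∑ w, Tk E η (x - w) * z w)‖ ^ 2 ≤ 1 / 4 * ∑ y, ‖z y‖ ^ 2)
    (φ : T d L → ℂ) :
    ∃ g : T d L → ℂ, (∀ x, φ x = kc (fun k => (tw E η k : ℂ) * g k) x) ∧
      (NN d L)⁻¹ * ∑ k, ‖g k‖ ^ 2 ≤
        8 * η⁻¹ * ∑ x, ‖Hz ((E + lam * m : ℝ) : ℂ) lam V φ x‖ ^ 2 + 8 * η * ∑ x, ‖φ x‖ ^ 2 := by
  have htw : ∀ k : T d L, ((tw E η k : ℝ) : ℂ) ≠ 0 := fun k => by
    exact_mod_cast (tw_pos E hη k).ne'
  set g : T d L → ℂ := fun k => ft φ k / (tw E η k : ℂ) with hg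
  have hφ : ∀ x, φ x = kc (fun k => (tw E η k : ℂ) * g k) x := by
    intro x
    have h1 : (fun k : T d L => (tw E η k : ℂ) * g k) = ft φ := by
      funext k
      simp only [hg]
      field_simp [htw k]
    rw [h1, kc_ft]
  refine ⟨g, hφ, ?_⟩
  set G : T d L → ℂ := kc g with hG
  -- `T G = φ`
  have hTG : ∀ x, ∑ w, Tk E η (x - w) * G w = φ x := by
    intro x
    rw [hφ x]
    exact conv_kc _ _ x
  -- the function `h`
  set h : T d L → ℂ := fun x => Hz ((E + lam * m : ℝ) : ℂ) lam V φ x + Complex.I * η * φ x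
    with hh
  have hφf : φ = kc (fun k => (tw E η k : ℂ) * g k) := funext hφ
  have hh1 : ∀ x, h x = kc (fun k => (((aa k - E : ℝ) : ℂ) + Complex.I * η) *
      ((tw E η k : ℂ) * g k)) x + (lam : ℂ) * (((V x - m : ℝ) : ℂ) * φ x) := by
    intro x
    simp only [hh]
    have h1 : Hz ((E + lam * m : ℝ) : ℂ) lam V φ x = kc (fun k => ((aa k : ℂ) -
        ((E + lam * m : ℝ) : ℂ)) * ((tw E η k : ℂ) * g k)) x + (lam : ℂ) * V x * φ x := by
      conv_lhs => rw [hφf]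
      rw [Hz_kc, ← hφ x]
    have h2 : (fun k : T d L => (((aa k - E : ℝ) : ℂ) + Complex.I * η) *
        ((tw E η k : ℂ) * g k)) = fun k => ((aa k : ℂ) - ((E + lam * m : ℝ) : ℂ)) *
        ((tw E η k : ℂ) * g k) + (Complex.I * η + lam * m) * ((tw E η k : ℂ) * g k) := by
      funext k
      push_cast
      ring
    rw [h1, h2, kc_add (fun k => ((aa k : ℂ) - ((E + lam * m : ℝ) : ℂ)) *
        ((tw E η k : ℂ) * g k)) (fun k => (Complex.I * η + lam * m) * ((tw E η k : ℂ) * g k)),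
      kc_const_mul, ← hφ x]
    push_cast
    ring
  -- `T h = U G + λ X G`
  set X : T d L → ℂ := fun y => (lam : ℂ) * ∑ x, Tk E η (y - x) *
      (((V x - m : ℝ) : ℂ) * ∑ w, Tk E η (x - w) * G w) with hXd
  set U : T d L → ℂ := kc (fun k => (tw E η k : ℂ) ^ 2 * (((aa k - E : ℝ) : ℂ) + Complex.I * η) *
      g k) with hU
  have hTh : ∀ y, ∑ x, Tk E η (y - x) * h x = U y + X y := by
    intro y
    simp only [hXd, hTG, hh1, mul_add, Finset.sum_add_distrib]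
    congr 1
    · unfold Tk
      rw [conv_kc]
      simp only [hU]
      congr 1
      funext k
      ring
    · rw [Finset.mul_sum]
      refine Finset.sum_congr rfl fun x _ => ?_
      ring
  have hTh2 : ∑ y, ‖∑ x, Tk E η (y - x) * h x‖ ^ 2 ≤ η⁻¹ * ∑ x, ‖h x‖ ^ 2 := by
    have h1 : ∀ y, ∑ x, Tk E η (y - x) * h x = kc (fun k => (tw E η k : ℂ) * ft h k) y := by
      intro y
      rw [← conv_kc]
      refine Finset.sum_congr rfl fun x _ => ?_
      rw [kc_ft]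
      rfl
    have h2 : ∑ x, ‖h x‖ ^ 2 = (NN d L)⁻¹ * ∑ k, ‖ft h k‖ ^ 2 := by
      rw [← parseval_sq]
      refine Finset.sum_congr rfl fun x _ => ?_
      rw [kc_ft]
    rw [Finset.sum_congr rfl fun y _ => by rw [h1 y], parseval_sq, h2, ← mul_assoc,
      mul_comm η⁻¹, mul_assoc]
    refine mul_le_mul_of_nonneg_left ?_ (inv_nonneg.2 NN_pos.le)
    rw [Finset.mul_sum]
    refine Finset.sum_le_sum fun k _ => ?_
    rw [norm_mul, mul_pow, Complex.norm_real, Real.norm_eq_abs, sq_abs]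
    exact mul_le_mul_of_nonneg_right (tw_sq_le E hη k) (by positivity)
  have hUU : ∑ y, ‖U y‖ ^ 2 = ∑ y, ‖G y‖ ^ 2 := by
    rw [hU, hG, parseval_sq, parseval_sq]
    congr 1
    refine Finset.sum_congr rfl fun k _ => ?_
    rw [norm_mul, tw_unit E hη k, one_mul]
  have hXX : ∑ y, ‖X y‖ ^ 2 ≤ 1 / 4 * ∑ y, ‖G y‖ ^ 2 := hX G
  have hGG : ∑ y, ‖G y‖ ^ 2 = (NN d L)⁻¹ * ∑ k, ‖g k‖ ^ 2 := by rw [hG, parseval_sq]
  have htri : ∑ y, ‖U y‖ ^ 2 ≤ 2 * ∑ y, ‖∑ x, Tk E η (y - x) * h x‖ ^ 2 +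
      2 * ∑ y, ‖X y‖ ^ 2 := by
    rw [Finset.mul_sum, Finset.mul_sum, ← Finset.sum_add_distrib]
    refine Finset.sum_le_sum fun y _ => ?_
    have h1 : U y = ∑ x, Tk E η (y - x) * h x - X y := by rw [hTh y]; ring
    have h2 := norm_sub_le (∑ x, Tk E η (y - x) * h x) (X y)
    rw [← h1] at h2
    nlinarith [norm_nonneg (U y), norm_nonneg (X y), norm_nonneg (∑ x, Tk E η (y - x) * h x),
      sq_nonneg (‖∑ x, Tk E η (y - x) * h x‖ - ‖X y‖)]
  have hhh : ∑ x, ‖h x‖ ^ 2 ≤ 2 * ∑ x, ‖Hz ((E + lam * m : ℝ) : ℂ) lam V φ x‖ ^ 2 +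
      2 * η ^ 2 * ∑ x, ‖φ x‖ ^ 2 := by
    rw [Finset.mul_sum, Finset.mul_sum, ← Finset.sum_add_distrib]
    refine Finset.sum_le_sum fun y _ => ?_
    have h2 : ‖h y‖ ≤ ‖Hz ((E + lam * m : ℝ) : ℂ) lam V φ y‖ + η * ‖φ y‖ := by
      refine (norm_add_le _ _).trans (le_of_eq ?_)
      rw [norm_mul, norm_mul, Complex.norm_I, Complex.norm_real, Real.norm_eq_abs,
        abs_of_pos hη, one_mul]
    nlinarith [norm_nonneg (h y), norm_nonneg (φ y),
      norm_nonneg (Hz ((E + lam * m : ℝ) : ℂ) lam V φ y),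
      sq_nonneg (‖Hz ((E + lam * m : ℝ) : ℂ) lam V φ y‖ - η * ‖φ y‖)]
  have hη' : 0 < η⁻¹ := inv_pos.2 hη
  have h4 : ∑ y, ‖G y‖ ^ 2 ≤ 4 * (η⁻¹ * ∑ x, ‖h x‖ ^ 2) := by linarith
  rw [← hGG]
  have h5 : η⁻¹ * ∑ x, ‖h x‖ ^ 2 ≤ η⁻¹ *
      (2 * ∑ x, ‖Hz ((E + lam * m : ℝ) : ℂ) lam V φ x‖ ^ 2 + 2 * η ^ 2 * ∑ x, ‖φ x‖ ^ 2) :=
    mul_le_mul_of_nonneg_left hhh hη'.le
  have h6 : η⁻¹ * (2 * ∑ x, ‖Hz ((E + lam * m : ℝ) : ℂ) lam V φ x‖ ^ 2 +
      2 * η ^ 2 * ∑ x, ‖φ x‖ ^ 2) = 2 * (η⁻¹ * ∑ x, ‖Hz ((E + lam * m : ℝ) : ℂ) lam V φ x‖ ^ 2) +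
      2 * (η * ∑ x, ‖φ x‖ ^ 2) := by
    field_simp
  nlinarith

/-- the distance from the origin in the maximum norm -/
def mx (x : T d L) : ℕ := Finset.univ.sup fun i => (x i).valMinAbs.natAbs

theorem mem_cub {y : T d L} {r : ℝ} (hr : 0 ≤ r) {x : T d L} :
    x ∈ cub y r ↔ ((mx (x - y) : ℕ) : ℝ) ≤ r := by
  unfold cub
  rw [Finset.mem_filter]
  simp only [Finset.mem_univ, true_and]
  have h1 : ∀ a : ℤ, ((|a| : ℤ) : ℝ) = ((a.natAbs : ℕ) : ℝ) := by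
    intro a
    exact (Nat.cast_natAbs a).symm
  constructor
  · intro h
    have h2 : mx (x - y) ≤ ⌊r⌋₊ := by
      unfold mx
      refine Finset.sup_le fun i _ => ?_
      have h3 := h i
      rw [h1] at h3
      exact Nat.le_floor h3
    calc ((mx (x - y) : ℕ) : ℝ) ≤ ((⌊r⌋₊ : ℕ) : ℝ) := by exact_mod_cast h2
      _ ≤ r := Nat.floor_le hr
  · intro h i
    rw [h1]
    refine le_trans ?_ h
    have h2 : (((x - y) i).valMinAbs.natAbs) ≤ mx (x - y) := by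
      unfold mx
      exact Finset.le_sup (f := fun i => ((x - y) i).valMinAbs.natAbs) (Finset.mem_univ i)
    exact_mod_cast h2

theorem vma_one : ((1 : ZMod L).valMinAbs).natAbs ≤ 1 := by
  have hL := NeZero.ne L
  rcases Nat.lt_or_ge L 2 with h | h
  · have h1 : L = 1 := by omega
    subst h1
    have h2 : (1 : ZMod 1) = 0 := Subsingleton.elim _ _
    rw [h2, ZMod.valMinAbs_zero]
    norm_num
  · have h1 : ((1 : ℕ) : ZMod L).valMinAbs = ((1 : ℕ) : ℤ) :=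
      ZMod.valMinAbs_natCast_of_le_half (by omega)
    rw [Nat.cast_one] at h1
    rw [h1]
    norm_num

theorem mx_add (x : T d L) (i : Fin d) (s : ZMod L) (hs : s = 1 ∨ s = -1) :
    mx (x + Pi.single i s) ≤ mx x + 1 := by
  unfold mx
  refine Finset.sup_le fun j _ => ?_
  have h0 : (x j).valMinAbs.natAbs ≤ Finset.univ.sup fun i => (x i).valMinAbs.natAbs :=
    Finset.le_sup (f := fun i => (x i).valMinAbs.natAbs) (Finset.mem_univ j)
  have hs1 : s.valMinAbs.natAbs ≤ 1 := by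
    rcases hs with h | h
    · rw [h]; exact vma_one
    · rw [h, ZMod.natAbs_valMinAbs_neg]; exact vma_one
  by_cases h : j = i
  · subst h
    rw [Pi.add_apply, Pi.single_eq_same]
    have h1 := ZMod.natAbs_valMinAbs_add_le (x j) s
    have h2 := Int.natAbs_add_le (x j).valMinAbs s.valMinAbs
    omega
  · rw [Pi.add_apply, Pi.single_eq_of_ne h, add_zero]
    omega

theorem mx_diff (x : T d L) (i : Fin d) (s : ZMod L) (hs : s = 1 ∨ s = -1) :
    |((mx (x + Pi.single i s) : ℕ) : ℝ) - ((mx x : ℕ) : ℝ)| ≤ 1 := by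
  have h1 := mx_add x i s hs
  have h2 := mx_add (x + Pi.single i s) i (-s) (by
    rcases hs with h | h
    · exact Or.inr (by rw [h])
    · exact Or.inl (by rw [h, neg_neg]))
  have h3 : x + Pi.single i s + Pi.single i (-s) = x := by
    rw [add_assoc, ← Pi.single_add, add_neg_cancel, Pi.single_zero, add_zero]
  rw [h3] at h2
  have h4 : ((mx (x + Pi.single i s) : ℕ) : ℝ) ≤ ((mx x : ℕ) : ℝ) + 1 := by exact_mod_cast h1
  have h5 : ((mx x : ℕ) : ℝ) ≤ ((mx (x + Pi.single i s) : ℕ) : ℝ) + 1 := by exact_mod_cast h2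
  rw [abs_le]
  constructor <;> linarith

/-- the cutoff -/
noncomputable def cut (η : ℝ) (y x : T d L) : ℝ := max 0 (min 1 (2 - η * (mx (x - y) : ℕ)))

theorem cut_nonneg (η : ℝ) (y x : T d L) : 0 ≤ cut η y x := le_max_left _ _

theorem cut_le (η : ℝ) (y x : T d L) : cut η y x ≤ 1 :=
  max_le zero_le_one (min_le_left _ _)

theorem cut_one {η : ℝ} (hη : 0 < η) (y x : T d L) (h : x ∈ cub y (1 / η)) : cut η y x = 1 := by
  rw [mem_cub (by positivity), le_div_iff₀ hη] at h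
  unfold cut
  rw [min_eq_left (by linarith), max_eq_right zero_le_one]

theorem cut_zero {η : ℝ} (hη : 0 < η) (y x : T d L) (h : x ∉ cub y (2 / η)) : cut η y x = 0 := by
  rw [mem_cub (by positivity), not_le, div_lt_iff₀ hη] at h
  unfold cut
  rw [min_eq_right (by linarith), max_eq_left (by linarith)]

theorem clamp_diff (s t : ℝ) : |max 0 (min 1 s) - max 0 (min 1 t)| ≤ |s - t| := by
  refine (abs_max_sub_max_le_max _ _ _ _).trans ?_
  rw [sub_self, abs_zero]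
  refine max_le (abs_nonneg _) ((abs_min_sub_min_le_max _ _ _ _).trans ?_)
  rw [sub_self, abs_zero]
  exact max_le (abs_nonneg _) le_rfl

theorem cut_diff {η : ℝ} (hη : 0 < η) (y x : T d L) (i : Fin d) (s : ZMod L)
    (hs : s = 1 ∨ s = -1) : |cut η y x - cut η y (x + Pi.single i s)| ≤ η := by
  have h1 := mx_diff (x - y) i s hs
  have h2 : x + Pi.single i s - y = x - y + Pi.single i s := by abel
  unfold cut
  rw [h2]
  set a : ℝ := ((mx (x - y) : ℕ) : ℝ)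
  set b : ℝ := ((mx (x - y + Pi.single i s) : ℕ) : ℝ)
  have h3 := clamp_diff (2 - η * a) (2 - η * b)
  refine h3.trans ?_
  have h4 : (2 - η * a) - (2 - η * b) = η * (b - a) := by ring
  rw [h4, abs_mul, abs_of_pos hη]
  nlinarith

/-- the commutator of the operator and the cutoff -/
noncomputable def comm (c : T d L → ℝ) (u : T d L → ℂ) (x : T d L) : ℂ :=
  ∑ i : Fin d, (((c x - c (x + Pi.single i 1) : ℝ) : ℂ) * u (x + Pi.single i 1) +
    ((c x - c (x + Pi.single i (-1)) : ℝ) : ℂ) * u (x + Pi.single i (-1)))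

theorem Hz_cut (z : ℂ) (σ : ℝ) (V : T d L → ℝ) (c : T d L → ℝ) (u : T d L → ℂ) (x : T d L) :
    Hz z σ V (fun x => (c x : ℂ) * u x) x = (c x : ℂ) * Hz z σ V u x + comm c u x := by
  have h1 : ∀ i : Fin d, x - Pi.single i 1 = x + Pi.single i (-1) := by
    intro i
    rw [Pi.single_neg, sub_eq_add_neg]
  unfold Hz comm
  simp only [h1]
  rw [mul_sub, Finset.mul_sum, sub_add, ← Finset.sum_sub_distrib]
  congr 1
  · ring
  · refine Finset.sum_congr rfl fun i _ => ?_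
    push_cast
    ring

theorem comm_sq (c : T d L → ℝ) (u : T d L → ℂ) (x : T d L) :
    ‖comm c u x‖ ^ 2 ≤ 2 * d * ∑ i : Fin d,
      (|c x - c (x + Pi.single i 1)| ^ 2 * ‖u (x + Pi.single i 1)‖ ^ 2 +
        |c x - c (x + Pi.single i (-1))| ^ 2 * ‖u (x + Pi.single i (-1))‖ ^ 2) := by
  have h1 : ‖comm c u x‖ ≤ ∑ i : Fin d, (|c x - c (x + Pi.single i 1)| * ‖u (x + Pi.single i 1)‖ +
      |c x - c (x + Pi.single i (-1))| * ‖u (x + Pi.single i (-1))‖) := by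
    unfold comm
    refine (norm_sum_le _ _).trans (Finset.sum_le_sum fun i _ => ?_)
    refine (norm_add_le _ _).trans (le_of_eq ?_)
    rw [norm_mul, norm_mul, Complex.norm_real, Complex.norm_real, Real.norm_eq_abs,
      Real.norm_eq_abs]
  refine (pow_le_pow_left₀ (norm_nonneg _) h1 2).trans ?_
  refine sq_sum_le_card_mul_sum_sq.trans ?_
  rw [Finset.card_univ, Fintype.card_fin, mul_comm (2 : ℝ), mul_assoc]
  refine mul_le_mul_of_nonneg_left ?_ (by positivity)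
  rw [Finset.mul_sum]
  refine Finset.sum_le_sum fun i _ => ?_
  nlinarith [sq_nonneg (|c x - c (x + Pi.single i 1)| * ‖u (x + Pi.single i 1)‖ -
      |c x - c (x + Pi.single i (-1))| * ‖u (x + Pi.single i (-1))‖)]

theorem shift_sq {η : ℝ} (hη : 0 < η) (y : T d L) (u : T d L → ℂ) (i : Fin d) (s : ZMod L)
    (hs : s = 1 ∨ s = -1) :
    ∑ x, |cut η y x - cut η y (x + Pi.single i s)| ^ 2 * ‖u (x + Pi.single i s)‖ ^ 2 ≤
      η ^ 2 * ∑ x ∈ cub y (2 / η + 2), ‖u x‖ ^ 2 := by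
  have hs' : -s = 1 ∨ -s = -1 := by
    rcases hs with h | h
    · exact Or.inr (by rw [h])
    · exact Or.inl (by rw [h, neg_neg])
  have e1 : ∑ x, |cut η y x - cut η y (x + Pi.single i s)| ^ 2 * ‖u (x + Pi.single i s)‖ ^ 2 =
      ∑ x, |cut η y (x + Pi.single i (-s)) - cut η y x| ^ 2 * ‖u x‖ ^ 2 := by
    set v : T d L := Pi.single i s with hv
    set v' : T d L := Pi.single i (-s) with hv'
    have hvv : v + v' = 0 := by rw [hv, hv', ← Pi.single_add, add_neg_cancel, Pi.single_zero]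
    have h0 := Equiv.sum_comp (Equiv.addRight v)
      (fun x : T d L => |cut η y (x + v') - cut η y x| ^ 2 * ‖u x‖ ^ 2)
    rw [← h0]
    refine Finset.sum_congr rfl fun x _ => ?_
    have h1 : (Equiv.addRight v) x = x + v := rfl
    have h2 : x + v + v' = x := by rw [add_assoc, hvv, add_zero]
    rw [h1, h2]
  rw [e1, Finset.mul_sum, ← Finset.sum_subset (Finset.subset_univ (cub y (2 / η + 2)))]
  · refine Finset.sum_le_sum fun x _ => ?_
    refine mul_le_mul_of_nonneg_right ?_ (by positivity)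
    have h1 := cut_diff hη y x i (-s) hs'
    rw [abs_sub_comm] at h1
    exact pow_le_pow_left₀ (abs_nonneg _) h1 2
  · intro x _ hx
    have hp : (0 : ℝ) < 2 / η := by positivity
    rw [mem_cub (by positivity), not_le] at hx
    have h1 : x ∉ cub y (2 / η) := by
      rw [mem_cub hp.le, not_le]
      linarith
    have h2 : x + Pi.single i (-s) ∉ cub y (2 / η) := by
      rw [mem_cub hp.le, not_le]
      have h3 := mx_diff (x - y) i (-s) hs'
      have h4 : x + Pi.single i (-s) - y = x - y + Pi.single i (-s) := by abel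
      rw [h4]
      have h5 := (abs_le.1 h3).1
      linarith
    rw [cut_zero hη y x h1, cut_zero hη y _ h2, sub_self, abs_zero]
    ring

theorem comm_sum {η : ℝ} (hη : 0 < η) (y : T d L) (u : T d L → ℂ) :
    ∑ x, ‖comm (cut η y) u x‖ ^ 2 ≤
      4 * d ^ 2 * η ^ 2 * ∑ x ∈ cub y (2 / η + 2), ‖u x‖ ^ 2 := by
  refine (Finset.sum_le_sum fun x _ => comm_sq (cut η y) u x).trans ?_
  rw [← Finset.mul_sum, Finset.sum_comm]
  simp only [Finset.sum_add_distrib]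
  have h1 : ∀ i : Fin d, ∑ x, |cut η y x - cut η y (x + Pi.single i 1)| ^ 2 *
      ‖u (x + Pi.single i 1)‖ ^ 2 ≤ η ^ 2 * ∑ x ∈ cub y (2 / η + 2), ‖u x‖ ^ 2 :=
    fun i => shift_sq hη y u i 1 (Or.inl rfl)
  have h2 : ∀ i : Fin d, ∑ x, |cut η y x - cut η y (x + Pi.single i (-1))| ^ 2 *
      ‖u (x + Pi.single i (-1))‖ ^ 2 ≤ η ^ 2 * ∑ x ∈ cub y (2 / η + 2), ‖u x‖ ^ 2 :=
    fun i => shift_sq hη y u i (-1) (Or.inr rfl)
  have h3 := Finset.sum_le_sum fun (i : Fin d) (_ : i ∈ Finset.univ) => h1 i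
  have h4 := Finset.sum_le_sum fun (i : Fin d) (_ : i ∈ Finset.univ) => h2 i
  rw [Finset.sum_const, Finset.card_univ, Fintype.card_fin, nsmul_eq_mul] at h3 h4
  have hd : (0 : ℝ) ≤ d := by positivity
  calc 2 * (d : ℝ) * (∑ i : Fin d, ∑ x, |cut η y x - cut η y (x + Pi.single i 1)| ^ 2 *
      ‖u (x + Pi.single i 1)‖ ^ 2 + ∑ i : Fin d, ∑ x, |cut η y x -
        cut η y (x + Pi.single i (-1))| ^ 2 * ‖u (x + Pi.single i (-1))‖ ^ 2) ≤
      2 * (d : ℝ) * (d * (η ^ 2 * ∑ x ∈ cub y (2 / η + 2), ‖u x‖ ^ 2) +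
        d * (η ^ 2 * ∑ x ∈ cub y (2 / η + 2), ‖u x‖ ^ 2)) :=
        mul_le_mul_of_nonneg_left (add_le_add h3 h4) (by positivity)
    _ = _ := by ring

theorem cub_mono {y : T d L} {r r' : ℝ} (h : r ≤ r') : cub y r ⊆ cub y r' := by
  intro x hx
  unfold cub at hx ⊢
  rw [Finset.mem_filter] at hx ⊢
  exact ⟨hx.1, fun i => (hx.2 i).trans h⟩

theorem local_est {E η lam m Γ : ℝ} (hη : 0 < η) (hη1 : η ≤ 1) (V : T d L → ℝ)
    (hX : ∀ z : T d L → ℂ, ∑ y, ‖(lam : ℂ) * ∑ x, Tk E η (y - x) *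
      (((V x - m : ℝ) : ℂ) * ∑ w, Tk E η (x - w) * z w)‖ ^ 2 ≤ 1 / 4 * ∑ y, ‖z y‖ ^ 2)
    (hΓ : 0 ≤ Γ)
    (hs : ∀ (g : T d L → ℂ) (y : T d L) (r : ℝ), 0 ≤ r →
      ∑ x ∈ cub y r, ‖kc (fun k => (tw E η k : ℂ) * g k) x‖ ^ 2 ≤
        Γ * (2 * r + 1) * ((NN d L)⁻¹ * ∑ k, ‖g k‖ ^ 2))
    (u : T d L → ℂ) (y : T d L) (r : ℝ) (hr0 : 0 ≤ r) (hr : r ≤ 1 / η) :
    ∑ x ∈ cub y r, ‖u x‖ ^ 2 ≤ Γ * (2 * r + 1) * (64 * d ^ 2 + 16) *
      (η * ∑ x ∈ cub y (2 / η + 2), ‖u x‖ ^ 2 +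
        η⁻¹ * ∑ x ∈ cub y (2 / η + 2), ‖Hz ((E + lam * m : ℝ) : ℂ) lam V u x‖ ^ 2) := by
  set c : T d L → ℝ := cut η y with hc
  set φ : T d L → ℂ := fun x => (c x : ℂ) * u x with hφ
  obtain ⟨g, hg1, hg2⟩ := det hη V hX φ
  have hsub : cub y (2 / η) ⊆ cub y (2 / η + 2) := cub_mono (by linarith)
  -- on the small cube
  have h1 : ∑ x ∈ cub y r, ‖u x‖ ^ 2 = ∑ x ∈ cub y r, ‖kc (fun k => (tw E η k : ℂ) * g k) x‖ ^ 2 := by
    refine Finset.sum_congr rfl fun x hx => ?_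
    rw [← hg1 x]
    simp only [hφ]
    rw [hc, cut_one hη y x (cub_mono hr hx), Complex.ofReal_one, one_mul]
  rw [h1]
  refine (hs g y r hr0).trans ?_
  rw [mul_assoc (Γ * (2 * r + 1))]
  refine mul_le_mul_of_nonneg_left (hg2.trans ?_) (by positivity)
  -- the norm of `φ`
  have hcz : ∀ x, x ∉ cub y (2 / η + 2) → c x = 0 := by
    intro x hx
    exact cut_zero hη y x (fun h => hx (hsub h))
  have hc01 : ∀ x, c x ^ 2 ≤ 1 := by
    intro x
    have := cut_nonneg η y x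
    have := cut_le η y x
    rw [hc]
    nlinarith
  have h2 : ∑ x, ‖φ x‖ ^ 2 ≤ ∑ x ∈ cub y (2 / η + 2), ‖u x‖ ^ 2 := by
    rw [← Finset.sum_subset (Finset.subset_univ (cub y (2 / η + 2)))]
    · refine Finset.sum_le_sum fun x _ => ?_
      simp only [hφ]
      rw [norm_mul, mul_pow, Complex.norm_real, Real.norm_eq_abs, sq_abs]
      have := hc01 x
      nlinarith [sq_nonneg ‖u x‖]
    · intro x _ hx
      simp only [hφ]
      rw [hcz x hx]
      simp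
  have h3 : ∑ x, ‖Hz ((E + lam * m : ℝ) : ℂ) lam V φ x‖ ^ 2 ≤
      2 * ∑ x ∈ cub y (2 / η + 2), ‖Hz ((E + lam * m : ℝ) : ℂ) lam V u x‖ ^ 2 +
      2 * ∑ x, ‖comm c u x‖ ^ 2 := by
    have h4 : ∑ x ∈ cub y (2 / η + 2), ‖Hz ((E + lam * m : ℝ) : ℂ) lam V u x‖ ^ 2 ≥
        ∑ x, ‖(c x : ℂ) * Hz ((E + lam * m : ℝ) : ℂ) lam V u x‖ ^ 2 := by
      rw [ge_iff_le, ← Finset.sum_subset (Finset.subset_univ (cub y (2 / η + 2)))]
      · refine Finset.sum_le_sum fun x _ => ?_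
        rw [norm_mul, mul_pow, Complex.norm_real, Real.norm_eq_abs, sq_abs]
        have := hc01 x
        nlinarith [sq_nonneg ‖Hz ((E + lam * m : ℝ) : ℂ) lam V u x‖]
      · intro x _ hx
        rw [hcz x hx]
        simp
    have h5 : ∑ x, ‖Hz ((E + lam * m : ℝ) : ℂ) lam V φ x‖ ^ 2 ≤
        2 * ∑ x, ‖(c x : ℂ) * Hz ((E + lam * m : ℝ) : ℂ) lam V u x‖ ^ 2 +
        2 * ∑ x, ‖comm c u x‖ ^ 2 := by
      rw [Finset.mul_sum, Finset.mul_sum, ← Finset.sum_add_distrib]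
      refine Finset.sum_le_sum fun x _ => ?_
      rw [hφ, Hz_cut]
      have h6 := norm_add_le ((c x : ℂ) * Hz ((E + lam * m : ℝ) : ℂ) lam V u x) (comm c u x)
      nlinarith [norm_nonneg ((c x : ℂ) * Hz ((E + lam * m : ℝ) : ℂ) lam V u x + comm c u x),
        norm_nonneg ((c x : ℂ) * Hz ((E + lam * m : ℝ) : ℂ) lam V u x),
        norm_nonneg (comm c u x),
        sq_nonneg (‖(c x : ℂ) * Hz ((E + lam * m : ℝ) : ℂ) lam V u x‖ - ‖comm c u x‖)]
    linarith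
  have h4 := comm_sum hη y u
  set A := ∑ x ∈ cub y (2 / η + 2), ‖u x‖ ^ 2 with hA
  set B := ∑ x ∈ cub y (2 / η + 2), ‖Hz ((E + lam * m : ℝ) : ℂ) lam V u x‖ ^ 2 with hB
  have hA0 : 0 ≤ A := Finset.sum_nonneg fun _ _ => by positivity
  have hB0 : 0 ≤ B := Finset.sum_nonneg fun _ _ => by positivity
  have hη' : 0 < η⁻¹ := inv_pos.2 hη
  have h5 : 8 * η⁻¹ * ∑ x, ‖Hz ((E + lam * m : ℝ) : ℂ) lam V φ x‖ ^ 2 ≤
      8 * η⁻¹ * (2 * B + 2 * (4 * d ^ 2 * η ^ 2 * A)) :=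
    mul_le_mul_of_nonneg_left (h3.trans (by linarith)) (by positivity)
  have h6 : 8 * η * ∑ x, ‖φ x‖ ^ 2 ≤ 8 * η * A := mul_le_mul_of_nonneg_left h2 (by positivity)
  have h7 : 8 * η⁻¹ * (2 * B + 2 * (4 * (d : ℝ) ^ 2 * η ^ 2 * A)) =
      16 * (η⁻¹ * B) + 64 * (d : ℝ) ^ 2 * (η * A) := by
    field_simp
    ring
  rw [h7] at h5
  have h8 : 0 ≤ (d : ℝ) ^ 2 * (η⁻¹ * B) := by positivity
  have h9 : 0 ≤ η * A := by positivity
  nlinarith

end Pool.Agent.Zk60.AE
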