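import Pool.Agent.Zk29.Mu.C0
import Pool.Agent.Zk29.Mu.T1
import Pool.Agent.Zk9.ChordA

/-!
# Normalisation by `w ↦ b + 1 / w`
-/

set_option autoImplicit false

open Filter Topology Metric Set Polynomial
open scoped OnePoint

namespace Pool.Agent.Zk29.Mu

open Pool.Agent.H792R2.CE
open Pool.Agent.Helper114.Herman

namespace NT

theorem pr_repr (x : OnePoint ℂ) : ∃ u v : ℂ, ¬ (u = 0 ∧ v = 0) ∧ x = pr u v := by
  obtain ⟨u, v, h1, h2⟩ := exists_pr x
  exact ⟨u, v, fun h => by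
    rcases h1 with h3 | h3
    · exact h3 h.1
    · exact h3 h.2, h2⟩

theorem nz {u v : ℂ} (h : ¬ (u = 0 ∧ v = 0)) : u ≠ 0 ∨ v ≠ 0 := by
  by_contra hc
  push Not at hc
  exact h hc

theorem hom_lin (a b : ℂ) (u v : ℂ) : hom (C a * X + C b) 1 u v = a * u + b * v := by
  unfold hom
  simp [Finset.sum_range_succ]
  ring

theorem coprime_lin (a b c e : ℂ) (h : a * e - b * c ≠ 0) :
    IsCoprime (C a * X + C b : ℂ[X]) (C c * X + C e) := by
  by_cases ha : a = 0
  · subst ha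
    have hc : c ≠ 0 := by
      rintro rfl
      simp at h
    have hb : b ≠ 0 := by
      rintro rfl
      simp at h
    refine ⟨C b⁻¹, 0, ?_⟩
    rw [C_0, zero_mul, zero_add, zero_mul, add_zero, ← C_mul, inv_mul_cancel₀ hb, C_1]
  · refine ⟨C (-c / (a * e - b * c)), C (a / (a * e - b * c)), ?_⟩
    have h1 : C (-c / (a * e - b * c)) * (C a * X + C b) +
        C (a / (a * e - b * c)) * (C c * X + C e) =
        C ((-c / (a * e - b * c)) * a + (a / (a * e - b * c)) * c) * X +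
        C ((-c / (a * e - b * c)) * b + (a / (a * e - b * c)) * e) := by
      simp only [C_add, C_mul]
      ring
    rw [h1]
    have h2 : (-c / (a * e - b * c)) * a + (a / (a * e - b * c)) * c = 0 := by
      field_simp
      ring
    have h3 : (-c / (a * e - b * c)) * b + (a / (a * e - b * c)) * e = 1 := by
      rw [div_mul_eq_mul_div, div_mul_eq_mul_div, ← add_div, div_eq_one_iff_eq h]
      ring
    rw [h2, h3, C_0, zero_mul, zero_add, C_1]

theorem deg_lin (a b : ℂ) : (C a * X + C b : ℂ[X]).natDegree ≤ 1 := natDegree_linear_le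

/-- the forward map -/
theorem fwd (b u v : ℂ) (h : ¬ (u = 0 ∧ v = 0)) :
    sph 1 (C b * X + C 1) (C 1 * X + C 0) (pr u v) = pr (b * u + v) u := by
  rw [B2x.sph_pr (deg_lin _ _) (deg_lin _ _) (nz h), hom_lin, hom_lin]
  congr 1 <;> ring

/-- the backward map -/
theorem bwd (b u v : ℂ) (h : ¬ (u = 0 ∧ v = 0)) :
    sph 1 (C 0 * X + C 1) (C 1 * X + C (-b)) (pr u v) = pr v (u - b * v) := by
  rw [B2x.sph_pr (deg_lin _ _) (deg_lin _ _) (nz h), hom_lin, hom_lin]
  congr 1 <;> ring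

end NT

open NT

theorem mob_exists (b : ℂ) : ∃ h : OnePoint ℂ ≃ₜ OnePoint ℂ,
    ∀ u v : ℂ, ¬ (u = 0 ∧ v = 0) → h (pr u v) = pr (b * u + v) u := by
  have n1 : ∀ u v : ℂ, ¬ (u = 0 ∧ v = 0) → ¬ (b * u + v = 0 ∧ u = 0) := by
    rintro u v h ⟨h1, h2⟩
    rw [h2, mul_zero, zero_add] at h1
    exact h ⟨h2, h1⟩
  have n2 : ∀ u v : ℂ, ¬ (u = 0 ∧ v = 0) → ¬ (v = 0 ∧ u - b * v = 0) := by
    rintro u v h ⟨h1, h2⟩
    rw [h1, mul_zero, sub_zero] at h2
    exact h ⟨h2, h1⟩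
  refine ⟨{ toFun := sph 1 (C b * X + C 1) (C 1 * X + C 0)
            invFun := sph 1 (C 0 * X + C 1) (C 1 * X + C (-b))
            left_inv := ?_
            right_inv := ?_
            continuous_toFun := ?_
            continuous_invFun := ?_ }, fun u v h => ?_⟩
  · intro x
    obtain ⟨u, v, h1, rfl⟩ := pr_repr x
    rw [fwd b u v h1, bwd b _ _ (n1 u v h1)]
    congr 1
    ring
  · intro x
    obtain ⟨u, v, h1, rfl⟩ := pr_repr x
    rw [bwd b u v h1, fwd b _ _ (n2 u v h1)]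
    congr 1
    ring
  · exact B1_continuous (coprime_lin _ _ _ _ (by simp)) (deg_lin _ _)
      (natDegree_linear one_ne_zero)
  · exact B1_continuous (coprime_lin _ _ _ _ (by simp)) (deg_lin _ _)
      (natDegree_linear one_ne_zero)
  · exact fwd b u v h

variable {d : ℕ} {P Q : ℂ[X]} {b : ℂ} {h : OnePoint ℂ ≃ₜ OnePoint ℂ}

theorem rd_deg (h0 : RD d P Q) : P.natDegree ≤ d ∧ Q.natDegree ≤ d :=
  ⟨(le_max_left _ _).trans h0.2.le, (le_max_right _ _).trans h0.2.le⟩

theorem conj_t (hd : 0 < d) (h0 : RD d P Q)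
    (hh : ∀ u v : ℂ, ¬ (u = 0 ∧ v = 0) → h (pr u v) = pr (b * u + v) u) (x : OnePoint ℂ) :
    sph d P Q (h x) = h (sph d (tP d b P Q) (tQ d b P Q) x) := by
  obtain ⟨hP, hQ⟩ := rd_deg h0
  obtain ⟨u, v, h1, rfl⟩ := pr_repr x
  have h2 : b * u + v ≠ 0 ∨ u ≠ 0 := by
    by_contra hc
    push Not at hc
    obtain ⟨h3, h4⟩ := hc
    rw [h4, mul_zero, zero_add] at h3
    exact h1 ⟨h4, h3⟩
  have h3 := (rd_iff hd hP hQ).1 h0 _ _ h2
  rw [hh u v h1, B2x.sph_pr hP hQ h2, B2x.sph_pr tP_deg tQ_deg (nz h1), hom_tP, hom_tQ, hh]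
  · congr 1
    ring
  · rintro ⟨h4, h5⟩
    rw [h4, mul_zero, sub_zero] at h5
    rcases h3 with h6 | h6
    · exact h6 h5
    · exact h6 h4

theorem sph_cont (hd : 0 < d) (h0 : RD d P Q) : Continuous (sph d P Q) := by
  obtain ⟨hPd, hQd'⟩ := rd_deg h0
  have hc := h0.1
  have hd' : d = max P.natDegree Q.natDegree := h0.2.symm
  have hnb : ∀ z : ℂ, P.eval z ≠ 0 ∨ Q.eval z ≠ 0 := by
    intro z
    by_contra hcon
    push Not at hcon
    obtain ⟨h1, h2⟩ := hcon
    obtain ⟨a, b, hab⟩ := hc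
    have := congrArg (Polynomial.eval z) hab
    simp [h1, h2] at this
  rw [OnePoint.continuous_iff]
  constructor
  · rw [coclosedCompact_eq_cocompact, ← Metric.cobounded_eq_cocompact, sph_infty]
    have h1 : Tendsto (fun z : ℂ => pr (hom P d 1 z⁻¹) (hom Q d 1 z⁻¹)) (Bornology.cobounded ℂ)
        (𝓝 (pr (hom P d 1 0) (hom Q d 1 0))) := by
      have h2 : ContinuousAt (fun w : ℂ => pr (hom P d 1 w) (hom Q d 1 w)) 0 :=
        ContinuousAt.comp (f := fun w => (hom P d 1 w, hom Q d 1 w))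
          (g := fun p : ℂ × ℂ => pr p.1 p.2) (x := (0 : ℂ))
          (continuousAt_pr (hom_not_both hc hd' (Or.inl one_ne_zero) hd))
          (((continuous_hom P d).comp (Continuous.prodMk_right 1)).continuousAt.prodMk
            ((continuous_hom Q d).comp (Continuous.prodMk_right 1)).continuousAt)
      exact Tendsto.comp (g := fun w : ℂ => pr (hom P d 1 w) (hom Q d 1 w)) h2.tendsto
        tendsto_inv₀_cobounded
    rw [hom_zero, hom_zero, one_pow, mul_one, mul_one] at h1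
    refine h1.congr' ?_
    filter_upwards [Bornology.eventually_ne_cobounded (0 : ℂ)] with z hz
    have hz' : z⁻¹ ≠ 0 := inv_ne_zero hz
    rw [sph_coe, hom_ne hPd hz', hom_ne hQd' hz',
      Pool.Agent.Helper114.Konig.pr_smul (pow_ne_zero _ hz'), one_div, inv_inv]
  · rw [continuous_iff_continuousAt]
    intro z
    exact ContinuousAt.comp (f := fun w : ℂ => (P.eval w, Q.eval w))
      (g := fun p : ℂ × ℂ => pr p.1 p.2) (x := z) (continuousAt_pr (hnb z))
      (P.continuous.continuousAt.prodMk Q.continuous.continuousAt)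

theorem rd_open (hd : 0 < d) (h0 : RD d P Q) : ∃ η : ℝ, 0 < η ∧ ∀ P' Q' : ℂ[X],
    P'.natDegree ≤ d → Q'.natDegree ≤ d →
    (∀ i, ‖P'.coeff i - P.coeff i‖ < η ∧ ‖Q'.coeff i - Q.coeff i‖ < η) → RD d P' Q' := by
  obtain ⟨hPd, hQd⟩ := rd_deg h0
  have hiff := (rd_iff hd hPd hQd).1 h0
  have hK : IsCompact (sphere (0 : ℂ × ℂ) 1) := isCompact_sphere _ _
  have hne : (sphere (0 : ℂ × ℂ) 1).Nonempty := NormedSpace.sphere_nonempty.2 zero_le_one
  obtain ⟨p0, hp0, hmin⟩ := hK.exists_isMinOn hne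
    (f := fun p : ℂ × ℂ => max ‖hom P d p.1 p.2‖ ‖hom Q d p.1 p.2‖)
    (((continuous_hom P d).norm.max (continuous_hom Q d).norm).continuousOn)
  obtain ⟨m, hm⟩ : ∃ m : ℝ, m = max ‖hom P d p0.1 p0.2‖ ‖hom Q d p0.1 p0.2‖ := ⟨_, rfl⟩
  have hm0 : 0 < m := by
    have h1 : p0.1 ≠ 0 ∨ p0.2 ≠ 0 := by
      by_contra hc
      push Not at hc
      have h2 : p0 = 0 := Prod.ext hc.1 hc.2
      rw [h2] at hp0
      simp at hp0
    rw [hm]
    rcases hiff _ _ h1 with h2 | h2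
    · exact lt_max_of_lt_left (norm_pos_iff.2 h2)
    · exact lt_max_of_lt_right (norm_pos_iff.2 h2)
  refine ⟨m / (2 * (d + 1)), by positivity, fun P' Q' hP' hQ' hcl => ?_⟩
  rw [rd_iff hd hP' hQ']
  have hdiff : ∀ (R R' : ℂ[X]), (∀ i, ‖R'.coeff i - R.coeff i‖ < m / (2 * (d + 1))) →
      ∀ p : ℂ × ℂ, p ∈ sphere (0 : ℂ × ℂ) 1 → ‖hom R' d p.1 p.2 - hom R d p.1 p.2‖ ≤ m / 2 := by
    intro R R' hR p hp
    have hp1 : ‖p.1‖ ≤ 1 := by
      have := norm_fst_le p
      rw [mem_sphere_zero_iff_norm.1 hp] at this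
      exact this
    have hp2 : ‖p.2‖ ≤ 1 := by
      have := norm_snd_le p
      rw [mem_sphere_zero_iff_norm.1 hp] at this
      exact this
    have h1 : hom R' d p.1 p.2 - hom R d p.1 p.2 = ∑ k ∈ Finset.range (d + 1),
        (R'.coeff k - R.coeff k) * p.1 ^ k * p.2 ^ (d - k) := by
      unfold hom
      rw [← Finset.sum_sub_distrib]
      refine Finset.sum_congr rfl fun k _ => ?_
      ring
    rw [h1]
    refine (norm_sum_le _ _).trans ?_
    have h2 : ∀ k ∈ Finset.range (d + 1),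
        ‖(R'.coeff k - R.coeff k) * p.1 ^ k * p.2 ^ (d - k)‖ ≤ m / (2 * (d + 1)) := by
      intro k _
      rw [norm_mul, norm_mul, norm_pow, norm_pow]
      have e1 : ‖p.1‖ ^ k ≤ 1 := pow_le_one₀ (norm_nonneg _) hp1
      have e2 : ‖p.2‖ ^ (d - k) ≤ 1 := pow_le_one₀ (norm_nonneg _) hp2
      have e3 := (hR k).le
      have e4 : ‖R'.coeff k - R.coeff k‖ * ‖p.1‖ ^ k ≤ m / (2 * (d + 1)) * 1 :=
        mul_le_mul e3 e1 (by positivity) (by positivity)
      calc ‖R'.coeff k - R.coeff k‖ * ‖p.1‖ ^ k * ‖p.2‖ ^ (d - k) ≤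
            m / (2 * (d + 1)) * 1 * 1 := mul_le_mul e4 e2 (by positivity) (by positivity)
        _ = _ := by ring
    refine (Finset.sum_le_sum h2).trans (le_of_eq ?_)
    rw [Finset.sum_const, Finset.card_range, nsmul_eq_mul]
    push_cast
    field_simp
  intro u v huv
  obtain ⟨r, hr⟩ : ∃ r : ℝ, r = ‖(u, v)‖ := ⟨_, rfl⟩
  have hr0 : 0 < r := by
    rw [hr]
    apply norm_pos_iff.2
    intro hc
    rw [Prod.mk_eq_zero] at hc
    rcases huv with h1 | h1
    · exact h1 hc.1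
    · exact h1 hc.2
  have hrc : (r : ℂ) ≠ 0 := by exact_mod_cast hr0.ne'
  have hp : (((r : ℂ)⁻¹ * u, (r : ℂ)⁻¹ * v) : ℂ × ℂ) ∈ sphere (0 : ℂ × ℂ) 1 := by
    rw [mem_sphere_zero_iff_norm]
    have h1 : (((r : ℂ)⁻¹ * u, (r : ℂ)⁻¹ * v) : ℂ × ℂ) = (r : ℂ)⁻¹ • (u, v) := rfl
    rw [h1, norm_smul, norm_inv, Complex.norm_real, Real.norm_eq_abs, abs_of_pos hr0, ← hr]
    exact inv_mul_cancel₀ hr0.ne'
  have h1 : m ≤ max ‖hom P d ((r : ℂ)⁻¹ * u) ((r : ℂ)⁻¹ * v)‖
      ‖hom Q d ((r : ℂ)⁻¹ * u) ((r : ℂ)⁻¹ * v)‖ := by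
    have := hmin hp
    rw [hm]
    exact this
  by_contra hc
  push Not at hc
  obtain ⟨c1, c2⟩ := hc
  have g1 : hom P' d ((r : ℂ)⁻¹ * u) ((r : ℂ)⁻¹ * v) = 0 := by rw [hom_smul, c1, mul_zero]
  have g2 : hom Q' d ((r : ℂ)⁻¹ * u) ((r : ℂ)⁻¹ * v) = 0 := by rw [hom_smul, c2, mul_zero]
  have k1 := hdiff P P' (fun i => (hcl i).1) _ hp
  have k2 := hdiff Q Q' (fun i => (hcl i).2) _ hp
  simp only [g1, g2, zero_sub, norm_neg] at k1 k2
  have := max_le k1 k2
  linarith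

/-! ### The chordal distance -/

namespace NT

theorem hco_infty : hco ∞ = (1, 0) := rfl

theorem hco_coe (z : ℂ) : hco (z : OnePoint ℂ) = (z, 1) := rfl

theorem hco_ne (x : OnePoint ℂ) : 0 < √(‖(hco x).1‖ ^ 2 + ‖(hco x).2‖ ^ 2) := by
  apply Real.sqrt_pos.2
  induction x using OnePoint.rec with
  | infty => simp [hco_infty]
  | coe z =>
    simp only [hco_coe, norm_one]
    positivity

theorem eq_of_chord {x y : OnePoint ℂ} (h : chord x y = 0) : x = y := by
  have h1 := hco_ne x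
  have h2 := hco_ne y
  unfold chord at h
  rw [div_eq_zero_iff] at h
  rcases h with h | h
  · rw [norm_eq_zero, sub_eq_zero] at h
    induction x using OnePoint.rec with
    | infty =>
      induction y using OnePoint.rec with
      | infty => rfl
      | coe w => simp [hco_infty, hco_coe] at h
    | coe z =>
      induction y using OnePoint.rec with
      | infty => simp [hco_infty, hco_coe] at h
      | coe w =>
        simp only [hco_coe, mul_one] at h
        rw [h]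
  · exact absurd h (mul_pos h1 h2).ne'

theorem chord_cont (a : OnePoint ℂ) : Continuous fun x => chord x a := by
  have ha := hco_ne a
  obtain ⟨p, hp⟩ : ∃ p, p = hco a := ⟨_, rfl⟩
  rw [← hp] at ha
  unfold chord
  rw [← hp, OnePoint.continuous_iff]
  constructor
  · rw [coclosedCompact_eq_cocompact, ← Metric.cobounded_eq_cocompact, hco_infty]
    have h1 : Continuous fun w : ℂ => ‖1 * p.2 - p.1 * w‖ /
        (√(‖(1 : ℂ)‖ ^ 2 + ‖w‖ ^ 2) * √(‖p.1‖ ^ 2 + ‖p.2‖ ^ 2)) := by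
      refine Continuous.div (by fun_prop) (by fun_prop) fun w => ?_
      have : 0 < √(‖(1 : ℂ)‖ ^ 2 + ‖w‖ ^ 2) := Real.sqrt_pos.2 (by rw [norm_one]; positivity)
      exact (mul_pos this ha).ne'
    have h2 := (h1.tendsto 0).comp tendsto_inv₀_cobounded
    have h3 : (‖1 * p.2 - p.1 * 0‖ / (√(‖(1 : ℂ)‖ ^ 2 + ‖(0 : ℂ)‖ ^ 2) *
        √(‖p.1‖ ^ 2 + ‖p.2‖ ^ 2))) = ‖((1 : ℂ), (0 : ℂ)).1 * p.2 - p.1 * ((1 : ℂ), (0 : ℂ)).2‖ /
        (√(‖((1 : ℂ), (0 : ℂ)).1‖ ^ 2 + ‖((1 : ℂ), (0 : ℂ)).2‖ ^ 2) *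
          √(‖p.1‖ ^ 2 + ‖p.2‖ ^ 2)) := rfl
    rw [h3] at h2
    refine h2.congr' ?_
    filter_upwards [Bornology.eventually_ne_cobounded (0 : ℂ)] with z hz
    simp only [Function.comp_apply, hco_coe]
    have hz' : 0 < ‖z‖ := norm_pos_iff.2 hz
    have e1 : ‖1 * p.2 - p.1 * z⁻¹‖ = ‖z * p.2 - p.1 * 1‖ / ‖z‖ := by
      rw [← norm_div]
      congr 1
      field_simp
    have e2 : √(‖(1 : ℂ)‖ ^ 2 + ‖z⁻¹‖ ^ 2) = √(‖z‖ ^ 2 + ‖(1 : ℂ)‖ ^ 2) / ‖z‖ := by
      rw [eq_div_iff hz'.ne']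
      conv_lhs => rw [← Real.sqrt_sq hz'.le]
      rw [← Real.sqrt_mul (by positivity)]
      congr 1
      rw [norm_inv, norm_one]
      field_simp
    rw [e1, e2]
    have e3 : √(‖z‖ ^ 2 + ‖(1 : ℂ)‖ ^ 2) ≠ 0 := by
      have : 0 < ‖z‖ ^ 2 + ‖(1 : ℂ)‖ ^ 2 := by positivity
      exact (Real.sqrt_pos.2 this).ne'
    field_simp
  · simp only [hco_coe]
    refine Continuous.div (by fun_prop) (by fun_prop) fun w => ?_
    have : 0 < √(‖w‖ ^ 2 + ‖(1 : ℂ)‖ ^ 2) := Real.sqrt_pos.2 (by rw [norm_one]; positivity)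
    exact (mul_pos this ha).ne'

theorem chord_nhds (a : OnePoint ℂ) {U : Set (OnePoint ℂ)} (hU : U ∈ 𝓝 a) :
    ∃ r : ℝ, 0 < r ∧ ∀ x, chord x a < r → x ∈ U := by
  obtain ⟨V, hV1, hV2, hV3⟩ := mem_nhds_iff.1 hU
  rcases (Vᶜ).eq_empty_or_nonempty with he | hne
  · refine ⟨1, one_pos, fun x _ => hV1 ?_⟩
    by_contra hx
    have : x ∈ (Vᶜ : Set (OnePoint ℂ)) := hx
    rw [he] at this
    exact this
  · obtain ⟨y, hy, hmin⟩ := hV2.isClosed_compl.isCompact.exists_isMinOn hne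
      (chord_cont a).continuousOn
    refine ⟨chord y a, ?_, fun x hx => hV1 ?_⟩
    · refine lt_of_le_of_ne (chord_nonneg y a) fun h0 => ?_
      have := eq_of_chord h0.symm
      rw [this] at hy
      exact hy hV3
    · by_contra hc
      have := hmin (show x ∈ (Vᶜ : Set (OnePoint ℂ)) from hc)
      exact absurd hx (not_lt.2 this)

theorem tendsto_of_chord {a : OnePoint ℂ} {x : ℕ → OnePoint ℂ}
    (h : Tendsto (fun k => chord (x k) a) atTop (𝓝 0)) : Tendsto x atTop (𝓝 a) := by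
  intro U hU
  obtain ⟨r, hr, h1⟩ := chord_nhds a hU
  have h2 := h.eventually (gt_mem_nhds hr)
  exact h2.mono fun k hk => h1 _ hk

/-- uniform contraction near a sink -/
theorem sink_ball {F : OnePoint ℂ → OnePoint ℂ} {n : ℕ} {a : OnePoint ℂ} (hs : Sink F n a) :
    ∃ r q : ℝ, 0 < r ∧ 0 ≤ q ∧ q < 1 ∧ ∀ x, chord x a < r → ∀ k : ℕ,
      chord (F^[n * k] x) a ≤ q ^ k * chord x a := by
  obtain ⟨hn, hfix, q, hq, hev⟩ := hs
  obtain ⟨r, hr, h1⟩ := chord_nhds a hev
  refine ⟨r, max q 0, hr, le_max_right _ _, max_lt hq one_pos, fun x hx k => ?_⟩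
  induction k with
  | zero => simp
  | succ k ih =>
    have h2 : chord (F^[n * k] x) a < r := by
      refine ih.trans_lt ?_
      have h3 : (max q 0) ^ k ≤ 1 := pow_le_one₀ (le_max_right _ _) (max_lt hq one_pos).le
      have h4 := chord_nonneg x a
      nlinarith
    have h5 : chord (F^[n] (F^[n * k] x)) a ≤ q * chord (F^[n * k] x) a := h1 _ h2
    rw [Nat.mul_succ, Nat.add_comm, Function.iterate_add_apply, pow_succ]
    have h6 := chord_nonneg (F^[n * k] x) a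
    have h7 : q ≤ max q 0 := le_max_left _ _
    have h8 : 0 ≤ max q 0 := le_max_right _ _
    nlinarith

theorem sink_conj' {F G : OnePoint ℂ → OnePoint ℂ} (h : OnePoint ℂ ≃ₜ OnePoint ℂ) {L : ℝ}
    (hL1 : 1 ≤ L) {n : ℕ} {a : OnePoint ℂ}
    (hL : ∀ x y, chord (h x) (h y) ≤ L * chord x y ∧ chord x y ≤ L * chord (h x) (h y))
    (hc : ∀ x, G (h x) = h (F x)) (hs : Sink F n a) :
    ∃ m, 0 < m ∧ Sink G (n * m) (h a) := by
  obtain ⟨r, q, hr, hq0, hq1, hball⟩ := sink_ball hs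
  obtain ⟨hn, hfix, -⟩ := hs
  have hiter : ∀ (i : ℕ) (x : OnePoint ℂ), G^[i] (h x) = h (F^[i] x) := by
    intro i x
    induction i with
    | zero => rfl
    | succ i ih => rw [Function.iterate_succ_apply', ih, hc, Function.iterate_succ_apply']
  have hlim : Tendsto (fun m : ℕ => L ^ 2 * q ^ m) atTop (𝓝 0) := by
    have h1 := (tendsto_pow_atTop_nhds_zero_of_lt_one hq0 hq1).const_mul (L ^ 2)
    rwa [mul_zero] at h1
  obtain ⟨m, hm1, hm2⟩ := ((hlim.eventually (gt_mem_nhds one_pos)).and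
    (eventually_gt_atTop 0)).exists
  have hfixm : ∀ m : ℕ, F^[n * m] a = a := by
    intro m
    induction m with
    | zero => rfl
    | succ m ih => rw [Nat.mul_succ, Function.iterate_add_apply, hfix, ih]
  refine ⟨m, hm2, Nat.mul_pos hn hm2, by rw [hiter, hfixm], L ^ 2 * q ^ m, hm1, ?_⟩
  have hL0 : 0 < L := by linarith
  have hmem : {x : OnePoint ℂ | chord x (h a) < r / L} ∈ 𝓝 (h a) :=
    (isOpen_lt (chord_cont (h a)) continuous_const).mem_nhds (by
      change chord (h a) (h a) < r / L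
      rw [chord_self]
      positivity)
  filter_upwards [hmem] with y hy
  obtain ⟨x, rfl⟩ := h.surjective y
  have h1 := (hL x a).2
  have hy' : chord (h x) (h a) < r / L := hy
  rw [lt_div_iff₀ hL0] at hy'
  have h2 : chord x a < r := by nlinarith
  have h3 := hball x h2 m
  have h4 := (hL (F^[n * m] x) a).1
  rw [hiter]
  have h5 : 0 ≤ q ^ m := by positivity
  calc chord (h (F^[n * m] x)) (h a) ≤ L * chord (F^[n * m] x) a := h4
    _ ≤ L * (q ^ m * (L * chord (h x) (h a))) := by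
        refine mul_le_mul_of_nonneg_left (h3.trans ?_) hL0.le
        exact mul_le_mul_of_nonneg_left h1 h5
    _ = _ := by ring

theorem der_of_sink' {d : ℕ} {P Q : ℂ[X]} (hcont : Continuous (sph d P Q)) {z : ℂ} {n : ℕ}
    (hfin : ∀ i, (sph d P Q)^[i] (z : OnePoint ℂ) ≠ ∞)
    (hs : Sink (sph d P Q) n (z : OnePoint ℂ)) : ‖deriv ((rf P Q)^[n]) z‖ < 1 := by
  obtain ⟨hn, hfix, q, hq, hev⟩ := hs
  -- near `z` the iterates are finite
  have hnear : ∀ i : ℕ, ∀ᶠ x : ℂ in 𝓝 z,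
      (sph d P Q)^[i] (x : OnePoint ℂ) = (((rf P Q)^[i] x : ℂ) : OnePoint ℂ) := by
    intro i
    induction i with
    | zero => exact Eventually.of_forall fun x => rfl
    | succ i ih =>
      have h1 : ∀ᶠ x : ℂ in 𝓝 z, (sph d P Q)^[i + 1] (x : OnePoint ℂ) ≠ ∞ := by
        have h2 : Continuous fun x : ℂ => (sph d P Q)^[i + 1] (x : OnePoint ℂ) :=
          (hcont.iterate (i + 1)).comp OnePoint.continuous_coe
        exact h2.continuousAt.eventually_ne (hfin (i + 1))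
      filter_upwards [ih, h1] with x hx1 hx2
      rw [Function.iterate_succ_apply', hx1] at hx2 ⊢
      have hQ : Q.eval ((rf P Q)^[i] x) ≠ 0 := by
        intro h0
        apply hx2
        rw [sph_coe, h0, pr_zero]
      rw [sph_coe_of_ne hQ, Function.iterate_succ_apply']
  obtain ⟨g, hg⟩ : ∃ g, g = (rf P Q)^[n] := ⟨_, rfl⟩
  rw [← hg]
  have hgz : g z = z := by
    have h1 := (hnear n).self_of_nhds
    rw [hfix, ← hg] at h1
    exact (OnePoint.coe_injective h1).symm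
  by_cases hd : DifferentiableAt ℂ g z
  swap
  · rw [deriv_zero_of_not_differentiableAt hd, norm_zero]
    exact one_pos
  have hev' : ∀ᶠ x : ℂ in 𝓝 z, ‖g x - z‖ ≤ q * (√(‖g x‖ ^ 2 + 1) / √(‖x‖ ^ 2 + 1)) * ‖x - z‖ := by
    have h1 := (OnePoint.continuous_coe (X := ℂ)).continuousAt.tendsto.eventually hev
    filter_upwards [h1, hnear n] with x hx1 hx2
    rw [hx2, ← hg, chord_coe, chord_coe] at hx1
    have e1 : 0 < √(‖g x‖ ^ 2 + 1) := Real.sqrt_pos.2 (by positivity)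
    have e2 : 0 < √(‖x‖ ^ 2 + 1) := Real.sqrt_pos.2 (by positivity)
    have e3 : 0 < √(‖z‖ ^ 2 + 1) := Real.sqrt_pos.2 (by positivity)
    rw [div_le_iff₀ (mul_pos e1 e3)] at hx1
    refine hx1.trans (le_of_eq ?_)
    field_simp
  have hder : Tendsto (fun x => ‖slope g z x‖) (𝓝[≠] z) (𝓝 ‖deriv g z‖) :=
    hd.hasDerivAt.tendsto_slope.norm
  have hrat : Tendsto (fun x => q * (√(‖g x‖ ^ 2 + 1) / √(‖x‖ ^ 2 + 1))) (𝓝[≠] z) (𝓝 q) := by
    have h1 : ContinuousAt (fun x => q * (√(‖g x‖ ^ 2 + 1) / √(‖x‖ ^ 2 + 1))) z := by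
      have h2 : ContinuousAt g z := hd.continuousAt
      have e2 : √(‖z‖ ^ 2 + 1) ≠ 0 := (Real.sqrt_pos.2 (by positivity)).ne'
      refine continuousAt_const.mul (ContinuousAt.div ?_ ?_ e2)
      · exact ((h2.norm.pow 2).add continuousAt_const).sqrt
      · exact ((continuous_norm.continuousAt.pow 2).add continuousAt_const).sqrt
    have h3 := h1.tendsto
    rw [hgz, div_self (Real.sqrt_pos.2 (by positivity)).ne', mul_one] at h3
    exact h3.mono_left nhdsWithin_le_nhds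
  refine lt_of_le_of_lt (le_of_tendsto_of_tendsto hder hrat ?_) hq
  filter_upwards [hev'.filter_mono nhdsWithin_le_nhds, self_mem_nhdsWithin] with x hx1 hx2
  have hxz : 0 < ‖x - z‖ := norm_pos_iff.2 (sub_ne_zero.2 hx2)
  rw [slope_def_field, hgz, norm_div, div_le_iff₀ hxz]
  exact hx1

end NT

theorem exists_b (hd : 0 < d) (h0 : RD d P Q) {n : ℕ} {a : OnePoint ℂ}
    (ha : Sink (sph d P Q) n a) : ∃ b : ℂ, IsCoprime (tP d b P Q) (tQ d b P Q) ∧
      (tP d b P Q).natDegree ≤ d ∧ (tQ d b P Q).natDegree = d ∧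
      Att d (tP d b P Q) (tQ d b P Q) ∞ := by
  obtain ⟨hP, hQ⟩ := rd_deg h0
  obtain ⟨r, q, hr, hq0, hq1, hball⟩ := sink_ball ha
  have ha' := ha
  obtain ⟨hn, hfix, -⟩ := ha
  -- a finite point near `a`, different from `a`
  obtain ⟨b, hb1, hb2⟩ : ∃ b : ℂ, chord (b : OnePoint ℂ) a < r ∧ (b : OnePoint ℂ) ≠ a := by
    have hopen : IsOpen ({x : OnePoint ℂ | chord x a < r} ∩ {a}ᶜ) :=
      (isOpen_lt (chord_cont a) continuous_const).inter isOpen_compl_singleton
    have hne : ({x : OnePoint ℂ | chord x a < r} ∩ {a}ᶜ).Nonempty := by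
      have hmem : {x : OnePoint ℂ | chord x a < r} ∈ 𝓝 a :=
        (isOpen_lt (chord_cont a) continuous_const).mem_nhds (by
          change chord a a < r
          rw [chord_self]
          exact hr)
      have hnb : (𝓝[≠] a).NeBot := by
        induction a using OnePoint.rec with
        | infty => infer_instance
        | coe z => infer_instance
      exact hnb.nonempty_of_mem (inter_mem_nhdsWithin _ hmem |> fun h => by
        rw [inter_comm]
        exact h)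
    obtain ⟨b, hb⟩ := OnePoint.denseRange_coe.exists_mem_open hopen hne
    exact ⟨b, hb.1, hb.2⟩
  set F := sph d P Q with hF
  have hfixb : ∀ k : ℕ, F^[n * (k + 1)] (b : OnePoint ℂ) ≠ (b : OnePoint ℂ) := by
    intro k hk
    have h1 := hball _ hb1 (k + 1)
    rw [hk] at h1
    have h2 : 0 < chord (b : OnePoint ℂ) a :=
      lt_of_le_of_ne (chord_nonneg _ _) fun h => hb2 (eq_of_chord h.symm)
    have h3 : q ^ (k + 1) < 1 := pow_lt_one₀ hq0 hq1 (Nat.succ_ne_zero k)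
    nlinarith
  have hF1 : F (b : OnePoint ℂ) ≠ (b : OnePoint ℂ) := by
    intro h
    have h1 : ∀ k, F^[k] (b : OnePoint ℂ) = (b : OnePoint ℂ) := fun k =>
      Function.iterate_fixed h k
    exact hfixb 0 (h1 _)
  have hper : ∀ i : ℕ, F^[i] a ≠ (b : OnePoint ℂ) := by
    intro i h
    have h1 : F^[n * (0 + 1)] (b : OnePoint ℂ) = (b : OnePoint ℂ) := by
      rw [← h, zero_add, mul_one, ← Function.iterate_add_apply, Nat.add_comm,
        Function.iterate_add_apply, hfix]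
    exact hfixb 0 h1
  -- the conjugate map
  have hrt : RD d (tP d b P Q) (tQ d b P Q) := (rd_t hd hP hQ).2 h0
  have hcoef : (tQ d b P Q).coeff d ≠ 0 := by
    intro hc
    have h1 : hom (tQ d b P Q) d 1 0 = 0 := by rw [hom_zero, hc, zero_mul]
    rw [hom_tQ, mul_one, add_zero, hom_ne hP one_ne_zero, hom_ne hQ one_ne_zero, one_pow,
      one_mul, one_mul, div_one, sub_eq_zero] at h1
    apply hF1
    rw [hF, sph_coe]
    by_cases h2 : Q.eval b = 0
    · rw [h2, mul_zero] at h1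
      obtain ⟨s, t, hst⟩ := h0.1
      have := congrArg (Polynomial.eval b) hst
      simp [h1, h2] at this
    · rw [pr_ne h2, h1, mul_div_assoc, div_self h2, mul_one]
  refine ⟨b, hrt.1, tP_deg, le_antisymm tQ_deg (le_natDegree_of_ne_zero hcoef), ?_⟩
  obtain ⟨h, hh⟩ := mob_exists b
  obtain ⟨L, hL1, hL⟩ := mob_lip b
  have hconj := conj_t hd h0 hh
  set G := sph d (tP d b P Q) (tQ d b P Q) with hG
  have hLh := hL h hh
  -- the inverse conjugacy
  have hcinv : ∀ x, G (h.symm x) = h.symm (F x) := by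
    intro x
    apply h.injective
    rw [← hconj, h.apply_symm_apply, h.apply_symm_apply]
  have hLs : ∀ x y, chord (h.symm x) (h.symm y) ≤ L * chord x y ∧
      chord x y ≤ L * chord (h.symm x) (h.symm y) := by
    intro x y
    have h1 := hLh (h.symm x) (h.symm y)
    rw [h.apply_symm_apply, h.apply_symm_apply] at h1
    exact ⟨h1.2, h1.1⟩
  obtain ⟨m, hm, hsink⟩ := sink_conj' h.symm hL1 hLs hcinv ha'
  have hiter : ∀ (i : ℕ) (x : OnePoint ℂ), G^[i] (h.symm x) = h.symm (F^[i] x) := by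
    intro i x
    induction i with
    | zero => rfl
    | succ i ih => rw [Function.iterate_succ_apply', ih, hcinv, Function.iterate_succ_apply']
  have hinf : h ∞ = (b : OnePoint ℂ) := by
    have h1 := hh 1 0 (fun h => one_ne_zero h.1)
    rwa [pr_zero, mul_one, add_zero, pr_one] at h1
  have hinf' : h.symm (b : OnePoint ℂ) = ∞ := by rw [← hinf, h.symm_apply_apply]
  obtain ⟨z, hz⟩ : ∃ z : ℂ, h.symm a = (z : OnePoint ℂ) := by
    have h1 : h.symm a ≠ ∞ := by
      intro h2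
      apply hb2
      rw [← hinf, ← h2, h.apply_symm_apply]
    obtain ⟨z, hz⟩ := OnePoint.ne_infty_iff_exists.1 h1
    exact ⟨z, hz.symm⟩
  have hfin : ∀ i : ℕ, G^[i] (z : OnePoint ℂ) ≠ ∞ := by
    intro i h1
    rw [← hz, hiter] at h1
    apply hper i
    rw [← hinf, ← h1, h.apply_symm_apply]
  rw [hz] at hsink
  refine ⟨n * m, Nat.mul_pos hn hm, z, hfin, hsink.2.1, der_of_sink' (sph_cont hd hrt) hfin hsink, ?_⟩
  have htend : Tendsto (fun k : ℕ => F^[n * (m * k)] (b : OnePoint ℂ)) atTop (𝓝 a) := by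
    apply tendsto_of_chord
    have h1 : Tendsto (fun k : ℕ => q ^ (m * k) * chord (b : OnePoint ℂ) a) atTop (𝓝 0) := by
      have h2 : Tendsto (fun k : ℕ => m * k) atTop atTop :=
        tendsto_id.const_mul_atTop' hm
      have h3 := (tendsto_pow_atTop_nhds_zero_of_lt_one hq0 hq1).comp h2
      have h4 := h3.mul_const (chord (b : OnePoint ℂ) a)
      rw [zero_mul] at h4
      exact h4
    exact squeeze_zero (fun k => chord_nonneg _ _) (fun k => hball _ hb1 (m * k)) h1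
  have h5 := (h.symm.continuous.tendsto a).comp htend
  rw [hz] at h5
  refine h5.congr fun k => ?_
  simp only [Function.comp_apply]
  rw [← hiter, hinf', mul_assoc]

end Pool.Agent.Zk29.Mu
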